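import Pool.Agent.Lib.MP_bae66e_nt.Mg.G106
import Pool.Agent.Lib.MP_bae66e_nt.EF.Fin2

/-!
# The final form: uniform in `R`, complex weights, the natural expected numbers
-/

set_option autoImplicit false

namespace Pool.Agent.Lib.MP_bae66e_nt.MF

open Finset MeasureTheory Real
open Pool.Agent.E3
open Pool.Agent.Lib.MP_bae66e_nt.EF (PX Wt HR unif complex_weight)
open Pool.Agent.Lib.MP_bae66e_nt.AP3 (prI mem_prI)

open Classical in
/-- the number of the primes `p ≤ y` with `n - p` prime -/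
noncomputable def rk (n y : ℕ) : ℕ := #{p ∈ Icc 1 y | p.Prime ∧ ∃ q : ℕ, q.Prime ∧ n = p + q}

/-- the expected number -/
noncomputable def exk (n y : ℕ) : ℝ := Pool.Agent.MG.sing n * (Nat.primeCounting y / Real.log n)

theorem ck_eq (R m s : ℕ) : ck R m s = rk (s * m) (2 * R ^ 2) := by
  unfold ck rk HR
  congr 1
  ext t
  simp only [mem_filter]
  constructor
  · rintro ⟨h1, h2, h3⟩
    refine ⟨h1, h2, s * m - t, h3, ?_⟩
    have := h3.pos
    omega
  · rintro ⟨h1, h2, q, h3, h4⟩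
    refine ⟨h1, h2, ?_⟩
    rw [h4, Nat.add_sub_cancel_left]
    exact h3

/-- `sing (r m)` against `sing m` -/
theorem sing_mul (r m : ℕ) (hr : r.Prime) (hr3 : 4 ≤ r) (hm : 1 ≤ m) :
    Pool.Agent.MG.sing m ≤ Pool.Agent.MG.sing (r * m) ∧
      Pool.Agent.MG.sing (r * m) ≤ (1 + 2 / (r : ℝ)) * Pool.Agent.MG.sing m := by
  have hS0 : 0 ≤ Pool.Agent.MG.sing m := by
    have h5 := (Pool.Agent.MG.sing_bounds m hm).1
    have h6 := Pool.Agent.MG.twinConst_pos.1
    linarith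
  have hr0 : (4 : ℝ) ≤ r := by exact_mod_cast hr3
  have hpf : (r * m).primeFactors = insert r m.primeFactors := by
    rw [Nat.primeFactors_mul hr.ne_zero (by omega), hr.primeFactors]
    rfl
  by_cases hd : r ∣ m
  · have h1 : (r * m).primeFactors = m.primeFactors := by
      rw [hpf]
      exact Finset.insert_eq_of_mem (Nat.mem_primeFactors.mpr ⟨hr, hd, by omega⟩)
    have h2 : Pool.Agent.MG.sing (r * m) = Pool.Agent.MG.sing m := by
      unfold Pool.Agent.MG.sing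
      rw [h1]
    rw [h2]
    refine ⟨le_rfl, ?_⟩
    have : 0 ≤ 2 / (r : ℝ) := by positivity
    nlinarith
  · have h1 : (r * m).primeFactors.erase 2 = insert r (m.primeFactors.erase 2) := by
      rw [hpf]
      ext p
      simp only [mem_erase, mem_insert]
      constructor
      · rintro ⟨h2, h3 | h3⟩
        · exact Or.inl h3
        · exact Or.inr ⟨h2, h3⟩
      · rintro (h3 | ⟨h2, h3⟩)
        · exact ⟨by omega, Or.inl h3⟩
        · exact ⟨h2, Or.inr h3⟩
    have hnot : r ∉ m.primeFactors.erase 2 := by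
      rw [mem_erase, Nat.mem_primeFactors]
      tauto
    have h2 : Pool.Agent.MG.sing (r * m) = (((r : ℝ) - 1) / ((r : ℝ) - 2)) * Pool.Agent.MG.sing m := by
      unfold Pool.Agent.MG.sing
      rw [h1, Finset.prod_insert hnot]
      ring
    have h3 : 1 ≤ ((r : ℝ) - 1) / ((r : ℝ) - 2) := by
      rw [le_div_iff₀ (by linarith)]
      linarith
    have h4 : ((r : ℝ) - 1) / ((r : ℝ) - 2) ≤ 1 + 2 / (r : ℝ) := by
      rw [div_le_iff₀ (by linarith)]
      have e : (1 + 2 / (r : ℝ)) * ((r : ℝ) - 2) = (r : ℝ) - 4 / r := by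
        field_simp
        ring
      rw [e]
      have : 4 / (r : ℝ) ≤ 1 := by
        rw [div_le_one (by linarith)]
        exact hr0
      linarith
    rw [h2]
    constructor
    · nlinarith
    · exact mul_le_mul_of_nonneg_right h4 hS0

/-- one weight between `0` and `1` -/
theorem one_weight_k (β : ℕ → ℝ) (hβ : Wt β) (R m : ℕ) (E ε' η : ℝ) (hη : 0 ≤ η) (hη1 : η ≤ 1 / 4) (hε : 0 ≤ ε')
    (hE : 0 ≤ E) (hcard : (R : ℝ) / Real.log R ≤ 8 * #(IS R))
    (hex : ∀ r ∈ IS R, (1 - η) * E ≤ exk (r * m) (2 * R ^ 2) ∧ exk (r * m) (2 * R ^ 2) ≤ (1 + 4 * η) * E)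
    (h : |cntK β R m - E * ∑ s ∈ IS R, β s| ≤ ε' * (E * (R / Real.log R))) :
    |∑ r ∈ IS R, β r * ((rk (r * m) (2 * R ^ 2) : ℝ) - exk (r * m) (2 * R ^ 2))| ≤
      (16 * ε' + 8 * η) * ∑ r ∈ IS R, exk (r * m) (2 * R ^ 2) := by
  have hcnt : cntK β R m = ∑ r ∈ IS R, β r * (rk (r * m) (2 * R ^ 2) : ℝ) := by
    unfold cntK
    exact Finset.sum_congr rfl fun r _ => by rw [ck_eq]
  have e1 : ∑ r ∈ IS R, β r * ((rk (r * m) (2 * R ^ 2) : ℝ) - exk (r * m) (2 * R ^ 2)) =
      (cntK β R m - E * ∑ s ∈ IS R, β s) + ∑ r ∈ IS R, β r * (E - exk (r * m) (2 * R ^ 2)) := by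
    rw [hcnt, Finset.mul_sum, ← Finset.sum_sub_distrib, ← Finset.sum_add_distrib]
    exact Finset.sum_congr rfl fun r _ => by ring
  have h2 : |∑ r ∈ IS R, β r * (E - exk (r * m) (2 * R ^ 2))| ≤ #(IS R) * (4 * η * E) := by
    refine (Finset.abs_sum_le_sum_abs _ _).trans ?_
    rw [← nsmul_eq_mul]
    refine Finset.sum_le_card_nsmul _ _ _ fun r hr => ?_
    obtain ⟨g1, g2⟩ := hex r hr
    rw [abs_mul, abs_of_nonneg (hβ r).1]
    have g3 : |E - exk (r * m) (2 * R ^ 2)| ≤ 4 * η * E := by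
      have : 0 ≤ η * E := by positivity
      rw [abs_le]
      constructor <;> nlinarith
    calc β r * |E - exk (r * m) (2 * R ^ 2)| ≤ 1 * |E - exk (r * m) (2 * R ^ 2)| :=
          mul_le_mul_of_nonneg_right (hβ r).2 (abs_nonneg _)
      _ ≤ 4 * η * E := by rw [one_mul]; exact g3
  have h3 : 1 / 2 * E * #(IS R) ≤ ∑ r ∈ IS R, exk (r * m) (2 * R ^ 2) := by
    have g1 : (#(IS R) : ℝ) * (1 / 2 * E) ≤ ∑ r ∈ IS R, exk (r * m) (2 * R ^ 2) := by
      rw [← nsmul_eq_mul]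
      refine Finset.card_nsmul_le_sum _ _ _ fun r hr => ?_
      have := (hex r hr).1
      nlinarith
    linarith
  have h4 : ε' * (E * (R / Real.log R)) ≤ ε' * (E * (8 * #(IS R))) := by gcongr
  have hn : (0 : ℝ) ≤ #(IS R) := Nat.cast_nonneg _
  rw [e1]
  refine (abs_add_le _ _).trans ?_
  calc |cntK β R m - E * ∑ s ∈ IS R, β s| + |∑ r ∈ IS R, β r * (E - exk (r * m) (2 * R ^ 2))|
      ≤ ε' * (E * (8 * #(IS R))) + #(IS R) * (4 * η * E) := add_le_add (h.trans h4) h2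
    _ = (16 * ε' + 8 * η) * (1 / 2 * E * #(IS R)) := by ring
    _ ≤ _ := mul_le_mul_of_nonneg_left h3 (by positivity)

/-- the final form -/
theorem final_k : ∃ c a₀ : ℝ, 0 < c ∧ ∀ A ε δ : ℝ, 0 < ε → 0 < δ → ∃ N₀ : ℕ, ∀ N : ℕ, N₀ ≤ N →
    ∀ R : ℕ, (Real.log N) ^ a₀ ≤ R → (R : ℝ) ≤ (Real.log N) ^ A → ∀ α : ℕ → ℂ, (∀ r, ‖α r‖ ≤ 1) →
    (#{m ∈ Icc 1 N | Even m ∧ ¬ (
      ‖∑ r ∈ IS R, α r * (((rk (r * m) (2 * R ^ 2) : ℝ) - exk (r * m) (2 * R ^ 2) : ℝ) : ℂ)‖ ≤
        ε * ∑ r ∈ IS R, exk (r * m) (2 * R ^ 2) ∧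
      c * (#(IS R) : ℝ) ≤ (#{r ∈ IS R | c * exk (r * m) (2 * R ^ 2) ≤ rk (r * m) (2 * R ^ 2)} : ℝ))} : ℝ) ≤ δ * N := by
  classical
  obtain ⟨c, a₀, hc, ha₀, hmain⟩ := pos_k
  obtain ⟨R₀, hR₀, hrec⟩ := recip_IS_ge
  refine ⟨c / 2, a₀, by positivity, fun A ε δ hε hδ => ?_⟩
  obtain ⟨η, hηd⟩ : ∃ η : ℝ, η = min (1 / 4) (ε / 64) := ⟨_, rfl⟩
  have hη0 : 0 < η := by rw [hηd]; exact lt_min (by norm_num) (by positivity)
  have hη1 : η ≤ 1 / 4 := by rw [hηd]; exact min_le_left _ _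
  have hη2 : η ≤ ε / 64 := by rw [hηd]; exact min_le_right _ _
  obtain ⟨N₁, h1⟩ := unif (fun N R => ∀ α : ℕ → ℝ, Wt α →
    (#{m ∈ Icc 1 N | Even m ∧
      ε / 128 * (Pool.Agent.MG.sing m * (Nat.primeCounting (HR R) * R / (Real.log N * Real.log R))) <
        |cntK α R m - Pool.Agent.MG.sing m * (Nat.primeCounting (HR R) / Real.log N) *
          ∑ s ∈ IS R, α s|} : ℝ) ≤ δ / 8 * N) a₀ A (fun a ha => by
      obtain ⟨N₀, h⟩ := (hmain a ha).1 (ε / 128) (δ / 8) (by positivity) (by positivity)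
      exact ⟨N₀, fun N hN R hR1 hR2 α hα => h N hN α hα R hR1 hR2⟩)
  obtain ⟨N₂, h2⟩ := unif (fun N R =>
    (#{m ∈ Icc 1 N | Even m ∧ ((goodK c N R m).card : ℝ) < c * (IS R).card} : ℝ) ≤ δ / 8 * N) a₀ A
      (fun a ha => by
      obtain ⟨N₀, h⟩ := (hmain a ha).2 (δ / 8) (by positivity)
      exact ⟨N₀, fun N hN R hR1 hR2 => h N hN R hR1 hR2⟩)
  have hLt : Filter.Tendsto (fun X : ℕ => Real.log X) Filter.atTop Filter.atTop :=
    Real.tendsto_log_atTop.comp tendsto_natCast_atTop_atTop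
  obtain ⟨N₃, h3⟩ := Filter.eventually_atTop.mp
    (hLt.eventually_ge_atTop (1 + (R₀ + (4 + 2 / η)) + (|Real.log (δ / 8)| + 1) / η))
  -- `log (2 R) ≤ η log N`
  obtain ⟨N₄, h4⟩ : ∃ N₄ : ℕ, ∀ N : ℕ, N₄ ≤ N → Real.log 2 + max A 1 * Real.log (Real.log N) ≤ η * Real.log N := by
    have g1 : ∀ᶠ y : ℝ in Filter.atTop, ‖Real.log y‖ ≤ η / (2 * max A 1) * ‖y‖ :=
      Real.isLittleO_log_id_atTop.bound (by positivity)
    have g2 := (hLt.eventually g1).and (hLt.eventually_ge_atTop (2 / η))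
    obtain ⟨N₄, h⟩ := Filter.eventually_atTop.mp g2
    refine ⟨N₄, fun N hN => ?_⟩
    obtain ⟨g3, g4⟩ := h N hN
    have hA1 : (1 : ℝ) ≤ max A 1 := le_max_right _ _
    have hlN0 : 0 < Real.log N := lt_of_lt_of_le (by positivity) g4
    rw [Real.norm_eq_abs, Real.norm_eq_abs, abs_of_pos hlN0] at g3
    have g5 : Real.log (Real.log N) ≤ η / (2 * max A 1) * Real.log N := (le_abs_self _).trans g3
    have g6 : max A 1 * Real.log (Real.log N) ≤ η / 2 * Real.log N := by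
      calc max A 1 * Real.log (Real.log N) ≤ max A 1 * (η / (2 * max A 1) * Real.log N) :=
            mul_le_mul_of_nonneg_left g5 (by linarith)
        _ = η / 2 * Real.log N := by
            have : max A 1 ≠ 0 := by positivity
            field_simp
    have g7 : Real.log 2 ≤ 1 := by
      have := Real.log_two_lt_d9
      linarith
    have g8 : 1 ≤ η / 2 * Real.log N := by
      rw [div_le_iff₀ hη0] at g4
      linarith
    linarith
  refine ⟨max (max N₁ N₄) (max N₂ (max N₃ 3)), fun N hN R hR1 hR2 α hα => ?_⟩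
  have hN1 : N₁ ≤ N := ((le_max_left _ _).trans (le_max_left _ _)).trans hN
  have hN44 : N₄ ≤ N := ((le_max_right _ _).trans (le_max_left _ _)).trans hN
  have hN2 : N₂ ≤ N := ((le_max_left _ _).trans (le_max_right _ _)).trans hN
  have hN3 : N₃ ≤ N := ((le_max_left _ _).trans ((le_max_right _ _).trans (le_max_right _ _))).trans hN
  have hN4 : 3 ≤ N := ((le_max_right _ _).trans ((le_max_right _ _).trans (le_max_right _ _))).trans hN
  have hlog := h3 N hN3
  have hlog4 := h4 N hN44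
  have hN0 : (0 : ℝ) < N := by exact_mod_cast (by omega : 0 < N)
  obtain ⟨lN, hlN⟩ : ∃ x : ℝ, x = Real.log N := ⟨_, rfl⟩
  rw [← hlN] at hlog hlog4
  have hq0 : 0 ≤ (|Real.log (δ / 8)| + 1) / η := by positivity
  have hq1 : 0 ≤ 2 / η := by positivity
  have hR₀r : (0 : ℝ) ≤ R₀ := Nat.cast_nonneg _
  have hlN1 : 1 ≤ lN := by linarith
  have hlN0 : 0 < lN := by linarith
  have hηlN : |Real.log (δ / 8)| + 1 ≤ η * lN := by
    have : (|Real.log (δ / 8)| + 1) / η ≤ lN := by linarith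
    rw [div_le_iff₀ hη0] at this
    linarith
  have hRlow : (R₀ : ℝ) + (4 + 2 / η) ≤ R := by
    refine le_trans ?_ hR1
    rw [← hlN]
    calc (R₀ : ℝ) + (4 + 2 / η) ≤ lN := by linarith
      _ = lN ^ (1 : ℝ) := (Real.rpow_one _).symm
      _ ≤ lN ^ a₀ := Real.rpow_le_rpow_of_exponent_le hlN1 (by linarith)
  have hRR : R₀ ≤ R := by
    have h4 : (R₀ : ℝ) ≤ R := by linarith
    exact_mod_cast h4
  have hR4 : 4 ≤ R := by
    have h4 : (4 : ℝ) ≤ R := by linarith
    exact_mod_cast h4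
  have hR0 : (0 : ℝ) < R := by linarith
  have hlR : 0 < Real.log R := Real.log_pos (by exact_mod_cast (by omega : 1 < R))
  have hrecR := hrec R hRR
  have hcard : (R : ℝ) / Real.log R ≤ 8 * #(IS R) := by
    have g1 : ∑ r ∈ IS R, 1 / (r : ℝ) ≤ #(IS R) * (1 / (R : ℝ)) := by
      rw [← nsmul_eq_mul]
      refine Finset.sum_le_card_nsmul _ _ _ fun r hr => ?_
      have := (mem_prI.mp hr).1.1
      exact one_div_le_one_div_of_le hR0 (by exact_mod_cast this.le)
    have g2 : 1 / (8 * Real.log R) ≤ #(IS R) * (1 / (R : ℝ)) := hrecR.trans g1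
    rw [div_le_iff₀ (by positivity)] at g2
    rw [div_le_iff₀ hlR]
    have g3 : (#(IS R) : ℝ) * (1 / R) * (8 * Real.log R) * R = 8 * #(IS R) * Real.log R := by
      field_simp
    nlinarith
  have hlr : ∀ r ∈ IS R, Real.log r ≤ η * lN := by
    intro r hr
    obtain ⟨⟨g1, g2⟩, g3⟩ := mem_prI.mp hr
    have hr0 : (0 : ℝ) < r := by exact_mod_cast g3.pos
    have g4 : (r : ℝ) ≤ 2 * lN ^ (max A 1) := by
      have g5 : (r : ℝ) ≤ 2 * R := by exact_mod_cast g2
      have g6 : (R : ℝ) ≤ lN ^ (max A 1) := by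
        rw [← hlN] at hR2
        exact hR2.trans (Real.rpow_le_rpow_of_exponent_le hlN1 (le_max_left _ _))
      linarith
    have g7 := Real.log_le_log hr0 g4
    rw [Real.log_mul (by norm_num) (by positivity), Real.log_rpow hlN0] at g7
    linarith
  -- the weights
  have hW1 : Wt (fun r => max (α r).re 0) := fun r => ⟨le_max_right _ _,
    max_le ((Complex.abs_re_le_norm _).trans (hα r) |> (le_abs_self _).trans) zero_le_one⟩
  have hW2 : Wt (fun r => max (-(α r).re) 0) := fun r => ⟨le_max_right _ _,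
    max_le ((Complex.abs_re_le_norm _).trans (hα r) |> (neg_le_abs _).trans) zero_le_one⟩
  have hW3 : Wt (fun r => max (α r).im 0) := fun r => ⟨le_max_right _ _,
    max_le ((Complex.abs_im_le_norm _).trans (hα r) |> (le_abs_self _).trans) zero_le_one⟩
  have hW4 : Wt (fun r => max (-(α r).im) 0) := fun r => ⟨le_max_right _ _,
    max_le ((Complex.abs_im_le_norm _).trans (hα r) |> (neg_le_abs _).trans) zero_le_one⟩
  set BB : (ℕ → ℝ) → Finset ℕ := fun β => {m ∈ Icc 1 N | Even m ∧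
      ε / 128 * (Pool.Agent.MG.sing m * (Nat.primeCounting (HR R) * R / (Real.log N * Real.log R))) <
        |cntK β R m - Pool.Agent.MG.sing m * (Nat.primeCounting (HR R) / Real.log N) *
          ∑ s ∈ IS R, β s|} with hBB
  have hb : ∀ β, Wt β → ((BB β).card : ℝ) ≤ δ / 8 * N := fun β hβ => h1 N hN1 R hR1 hR2 β hβ
  set GG : Finset ℕ := {m ∈ Icc 1 N | Even m ∧ ((goodK c N R m).card : ℝ) < c * (IS R).card} with hGG
  have hg : (GG.card : ℝ) ≤ δ / 8 * N := h2 N hN2 R hR1 hR2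
  set SS : Finset ℕ := {m ∈ Icc 1 N | (m : ℝ) ≤ δ / 8 * N} with hSS
  have hs : (SS.card : ℝ) ≤ δ / 8 * N := by
    have h5 : SS ⊆ Icc 1 ⌊δ / 8 * N⌋₊ := by
      intro m hm
      obtain ⟨h6, h7⟩ := mem_filter.mp hm
      rw [mem_Icc] at h6 ⊢
      exact ⟨h6.1, Nat.le_floor h7⟩
    have h6 := card_le_card h5
    rw [Nat.card_Icc, Nat.add_sub_cancel] at h6
    refine le_trans ?_ (Nat.floor_le (by positivity))
    exact_mod_cast h6
  have hsub : ({m ∈ Icc 1 N | Even m ∧ ¬ (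
      ‖∑ r ∈ IS R, α r * (((rk (r * m) (2 * R ^ 2) : ℝ) - exk (r * m) (2 * R ^ 2) : ℝ) : ℂ)‖ ≤
        ε * ∑ r ∈ IS R, exk (r * m) (2 * R ^ 2) ∧
      c / 2 * (#(IS R) : ℝ) ≤ (#{r ∈ IS R | c / 2 * exk (r * m) (2 * R ^ 2) ≤ rk (r * m) (2 * R ^ 2)} : ℝ))} : Finset ℕ) ⊆
      ((((BB fun r => max (α r).re 0) ∪ (BB fun r => max (-(α r).re) 0)) ∪
        ((BB fun r => max (α r).im 0) ∪ (BB fun r => max (-(α r).im) 0))) ∪ (GG ∪ SS)) := by
    intro m hm
    obtain ⟨hm1, hm2, hm3⟩ := mem_filter.mp hm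
    by_contra hcon
    simp only [mem_union, not_or] at hcon
    obtain ⟨⟨⟨k1, k2⟩, k3, k4⟩, k5, k6⟩ := hcon
    apply hm3
    rw [mem_Icc] at hm1
    have hmN : (m : ℝ) ≤ N := by exact_mod_cast hm1.2
    have hm0 : (0 : ℝ) < m := by exact_mod_cast (by omega : 0 < m)
    have hmδ : δ / 8 * N < m := by
      by_contra h5
      exact k6 (mem_filter.mpr ⟨mem_Icc.mpr hm1, not_lt.mp h5⟩)
    have hlm1 : Real.log m ≤ lN := by rw [hlN]; exact Real.log_le_log hm0 hmN
    have hlm2 : (1 - η) * lN ≤ Real.log m := by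
      have h5 : Real.log (δ / 8 * N) ≤ Real.log m := Real.log_le_log (by positivity) hmδ.le
      rw [Real.log_mul (by positivity) (by positivity), ← hlN] at h5
      have h6 := neg_abs_le (Real.log (δ / 8))
      nlinarith
    have hlm0 : 0 < Real.log m := by
      have : (1 : ℝ) / 2 * lN ≤ (1 - η) * lN := mul_le_mul_of_nonneg_right (by linarith) (by linarith)
      linarith
    have hS0 : 0 ≤ Pool.Agent.MG.sing m := by
      have h5 := (Pool.Agent.MG.sing_bounds m (by omega)).1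
      have h6 := Pool.Agent.MG.twinConst_pos.1
      linarith
    obtain ⟨P, hP⟩ : ∃ P : ℝ, P = (Nat.primeCounting (2 * R ^ 2) : ℝ) := ⟨_, rfl⟩
    have hP0 : 0 ≤ P := by rw [hP]; exact Nat.cast_nonneg _
    obtain ⟨E, hE⟩ : ∃ E : ℝ, E = Pool.Agent.MG.sing m * (P / lN) := ⟨_, rfl⟩
    have hE0 : 0 ≤ E := by rw [hE]; positivity
    have hex : ∀ r ∈ IS R, (1 - η) * E ≤ exk (r * m) (2 * R ^ 2) ∧ exk (r * m) (2 * R ^ 2) ≤ (1 + 4 * η) * E := by
      intro r hr
      obtain ⟨⟨g1, g2⟩, g3⟩ := mem_prI.mp hr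
      have hr0 : (0 : ℝ) < r := by exact_mod_cast g3.pos
      have hrR : (R : ℝ) ≤ r := by exact_mod_cast g1.le
      obtain ⟨g4, g5⟩ := sing_mul r m g3 (by omega) (by omega)
      have g6 : 2 / (r : ℝ) ≤ η := by
        rw [div_le_iff₀ hr0]
        have h7 : 2 / η ≤ r := by linarith
        rw [div_le_iff₀ hη0] at h7
        linarith
      have hlr0 : 0 ≤ Real.log r := Real.log_natCast_nonneg r
      have hlrm : Real.log ((r * m : ℕ) : ℝ) = Real.log r + Real.log m := by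
        push_cast
        exact Real.log_mul hr0.ne' hm0.ne'
      have hup := hlr r hr
      have g7 : lN * (1 - η) ≤ Real.log ((r * m : ℕ) : ℝ) := by rw [hlrm]; linarith
      have g8 : Real.log ((r * m : ℕ) : ℝ) ≤ (1 + η) * lN := by rw [hlrm]; linarith
      have g9 : 0 < Real.log ((r * m : ℕ) : ℝ) := by rw [hlrm]; linarith
      have g10 : Pool.Agent.MG.sing (r * m) ≤ (1 + η) * Pool.Agent.MG.sing m :=
        g5.trans (mul_le_mul_of_nonneg_right (by linarith) hS0)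
      unfold exk
      rw [← hP, hE]
      obtain ⟨ℓ, hℓ⟩ : ∃ ℓ : ℝ, ℓ = Real.log ((r * m : ℕ) : ℝ) := ⟨_, rfl⟩
      rw [← hℓ] at g7 g8 g9 ⊢
      have hd1 : (1 - η) * (P / lN) ≤ P / ℓ := by
        rw [le_div_iff₀ g9]
        have h7 : (1 - η) * (1 + η) ≤ 1 := by nlinarith [sq_nonneg η]
        have h8 : (1 - η) * (P / lN) * ℓ ≤ (1 - η) * (P / lN) * ((1 + η) * lN) :=
          mul_le_mul_of_nonneg_left g8 (mul_nonneg (by linarith) (by positivity))
        have h9 : (1 - η) * (P / lN) * ((1 + η) * lN) = (1 - η) * (1 + η) * P := by field_simp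
        nlinarith
      have hd2 : (1 + η) * (P / ℓ) ≤ (1 + 4 * η) * (P / lN) := by
        have h7 : P / ℓ ≤ P / (lN * (1 - η)) :=
          div_le_div_of_nonneg_left hP0 (mul_pos hlN0 (by linarith)) g7
        have h8 : P / (lN * (1 - η)) = P / lN * (1 / (1 - η)) := by
          have : (1 - η) ≠ 0 := by linarith
          field_simp
        have h9 : (1 + η) * (1 / (1 - η)) ≤ 1 + 4 * η := by
          rw [mul_one_div, div_le_iff₀ (by linarith)]
          nlinarith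
        calc (1 + η) * (P / ℓ) ≤ (1 + η) * (P / lN * (1 / (1 - η))) := by
              rw [← h8]; exact mul_le_mul_of_nonneg_left h7 (by linarith)
          _ = ((1 + η) * (1 / (1 - η))) * (P / lN) := by ring
          _ ≤ (1 + 4 * η) * (P / lN) := mul_le_mul_of_nonneg_right h9 (by positivity)
      constructor
      · calc (1 - η) * (Pool.Agent.MG.sing m * (P / lN)) = Pool.Agent.MG.sing m * ((1 - η) * (P / lN)) := by ring
          _ ≤ Pool.Agent.MG.sing m * (P / ℓ) := mul_le_mul_of_nonneg_left hd1 hS0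
          _ ≤ Pool.Agent.MG.sing (r * m) * (P / ℓ) := mul_le_mul_of_nonneg_right g4 (by positivity)
      · calc Pool.Agent.MG.sing (r * m) * (P / ℓ) ≤ (1 + η) * Pool.Agent.MG.sing m * (P / ℓ) :=
              mul_le_mul_of_nonneg_right g10 (by positivity)
          _ = Pool.Agent.MG.sing m * ((1 + η) * (P / ℓ)) := by ring
          _ ≤ Pool.Agent.MG.sing m * ((1 + 4 * η) * (P / lN)) := mul_le_mul_of_nonneg_left hd2 hS0
          _ = (1 + 4 * η) * (Pool.Agent.MG.sing m * (P / lN)) := by ring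
    have hone : ∀ β : ℕ → ℝ, Wt β → m ∉ BB β →
        |∑ r ∈ IS R, β r * ((rk (r * m) (2 * R ^ 2) : ℝ) - exk (r * m) (2 * R ^ 2))| ≤
          ε / 4 * ∑ r ∈ IS R, exk (r * m) (2 * R ^ 2) := by
      intro β hβ hmB
      have h5 : |cntK β R m - Pool.Agent.MG.sing m * (Nat.primeCounting (HR R) / Real.log N) *
          ∑ s ∈ IS R, β s| ≤
          ε / 128 * (Pool.Agent.MG.sing m * (Nat.primeCounting (HR R) * R / (Real.log N * Real.log R))) := by
        by_contra h6
        exact hmB (mem_filter.mpr ⟨mem_Icc.mpr hm1, hm2, not_le.mp h6⟩)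
      have h6 : |cntK β R m - E * ∑ s ∈ IS R, β s| ≤ ε / 128 * (E * (R / Real.log R)) := by
        have hHR : HR R = 2 * R ^ 2 := rfl
        rw [hHR, ← hP, ← hlN] at h5
        rw [hE]
        refine h5.trans (le_of_eq ?_)
        field_simp
      refine (one_weight_k β hβ R m E (ε / 128) η hη0.le hη1 (by positivity) hE0 hcard hex h6).trans ?_
      refine mul_le_mul_of_nonneg_right (by linarith) ?_
      refine Finset.sum_nonneg fun r hr => ?_
      exact le_trans (mul_nonneg (by linarith) hE0) (hex r hr).1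
    constructor
    · have h5 := complex_weight (IS R) α (fun r => (rk (r * m) (2 * R ^ 2) : ℝ) - exk (r * m) (2 * R ^ 2))
        (ε / 4 * ∑ r ∈ IS R, exk (r * m) (2 * R ^ 2)) (hone _ hW1 k1) (hone _ hW2 k2) (hone _ hW3 k3) (hone _ hW4 k4)
      refine h5.trans (le_of_eq ?_)
      ring
    · have h5 : c * (#(IS R) : ℝ) ≤ ((goodK c N R m).card : ℝ) := by
        by_contra h6
        exact k5 (mem_filter.mpr ⟨mem_Icc.mpr hm1, hm2, not_le.mp h6⟩)
      have h6 : c / 2 * (#(IS R) : ℝ) ≤ c * (#(IS R) : ℝ) :=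
        mul_le_mul_of_nonneg_right (by linarith) (Nat.cast_nonneg _)
      refine (h6.trans h5).trans ?_
      refine Nat.cast_le.mpr (card_le_card ?_)
      intro r hr
      unfold goodK at hr
      obtain ⟨hr1, hr2⟩ := mem_filter.mp hr
      refine mem_filter.mpr ⟨hr1, ?_⟩
      rw [← ck_eq R m r]
      refine le_trans ?_ hr2
      have hHR : HR R = 2 * R ^ 2 := rfl
      rw [hHR, ← hP, ← hlN, ← hE]
      have h7 := (hex r hr1).2
      calc c / 2 * exk (r * m) (2 * R ^ 2) ≤ c / 2 * ((1 + 4 * η) * E) :=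
            mul_le_mul_of_nonneg_left h7 (by positivity)
        _ ≤ c / 2 * (2 * E) := by
            refine mul_le_mul_of_nonneg_left (mul_le_mul_of_nonneg_right (by linarith) hE0) (by positivity)
        _ = c * E := by ring
  refine (Nat.cast_le.mpr (card_le_card hsub)).trans ?_
  have c1 := hb _ hW1
  have c2 := hb _ hW2
  have c3 := hb _ hW3
  have c4 := hb _ hW4
  have hun : ∀ U V : Finset ℕ, ((U ∪ V).card : ℝ) ≤ (U.card : ℝ) + V.card := fun U V => by
    exact_mod_cast card_union_le U V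
  have u1 := hun ((((BB fun r => max (α r).re 0) ∪ (BB fun r => max (-(α r).re) 0)) ∪
        ((BB fun r => max (α r).im 0) ∪ (BB fun r => max (-(α r).im) 0)))) (GG ∪ SS)
  have u2 := hun ((BB fun r => max (α r).re 0) ∪ (BB fun r => max (-(α r).re) 0))
    ((BB fun r => max (α r).im 0) ∪ (BB fun r => max (-(α r).im) 0))
  have u3 := hun (BB fun r => max (α r).re 0) (BB fun r => max (-(α r).re) 0)
  have u4 := hun (BB fun r => max (α r).im 0) (BB fun r => max (-(α r).im) 0)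
  have u5 := hun GG SS
  have hN8 : 0 ≤ δ / 8 * N := by positivity
  linarith

end Pool.Agent.Lib.MP_bae66e_nt.MF
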