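import Pool.Agent.Lib.MP_bae66e_nt.Mg.G109
import Pool.Agent.Lib.MP_bae66e_nt.Mg.G040

/-!
# Row T2: from windows to almost all short intervals, real points (port of `win_two`, EF/S2)
-/

set_option autoImplicit false

namespace Pool.Agent.Lib.MP_bae66e_nt.MF

open Finset MeasureTheory Real
open Pool.Agent.E3
open Pool.Agent.Lib.MP_bae66e_nt.EF (PX Wt HR gA COREG)
open Pool.Agent.Lib.MP_bae66e_nt.LL (fP gW)
open Pool.Agent.Lib.MP_bae66e_nt.AC (Sg VV)
open Pool.Agent.Lib.MP_bae66e_nt.AP3 (prI mem_prI)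

private theorem T2_gsn_nonneg (L v : ℝ) (hL : 0 < L) : 0 ≤ gsn L v := by
  unfold gsn; positivity

open Classical in
/-- the first part: the sharp interval against the smoothed one, for one `m` -/
private theorem T2_point {ι : Type} (P : Finset ι) (n : ι → ℝ) (u : ι → ℝ) (H X m : ℕ) (d : ℝ)
    (hn : ∀ p ∈ P, 0 < n p) (hu : ∀ p ∈ P, 0 ≤ u p) (hH : 1 ≤ H) (hX : 100 * H ≤ X) (hd : 0 < d) (hm : m ∈ Icc X (2 * X)) :
    |∑ p ∈ P with ((m : ℕ) : ℝ) - H ≤ n p ∧ n p < (m : ℕ), u p -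
      m / Real.sqrt (2 * π) * ∫ x in EF.II H m, ∑ p ∈ P, u p / n p * gsn d (x - Real.log (n p))| ≤
    ∑ p ∈ P, u p / n p * (H * (if ((m : ℕ) : ℝ) - H ≤ n p ∧ n p < (m : ℕ) then (1 : ℝ) else 0) +
      2 * X * |(if ((m : ℕ) : ℝ) - H ≤ n p ∧ n p < (m : ℕ) then (1 : ℝ) else 0) -
        1 / Real.sqrt (2 * π) * ∫ x in EF.II H m, gsn d (x - Real.log (n p))|) := by
  have hmX : (X : ℝ) ≤ m ∧ (m : ℝ) ≤ 2 * X := by
    obtain ⟨h1, h2⟩ := Finset.mem_Icc.1 hm
    exact ⟨by exact_mod_cast h1, by exact_mod_cast h2⟩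
  have hHm : H ≤ m := by
    have := (Finset.mem_Icc.1 hm).1
    omega
  have hgi : ∀ p ∈ P, IntegrableOn (fun x : ℝ => u p / n p * gsn d (x - Real.log (n p))) (EF.II H m) :=
    fun p _ => ((gsn_integral d (Real.log (n p)) hd).1.const_mul _).integrableOn
  rw [integral_finsetSum _ hgi, Finset.sum_filter, Finset.mul_sum, ← Finset.sum_sub_distrib]
  refine (Finset.abs_sum_le_sum_abs _ _).trans (Finset.sum_le_sum fun p hp => ?_)
  have hn0 : (0 : ℝ) < n p := hn p hp
  have hup := hu p hp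
  rw [integral_const_mul]
  set φ := 1 / Real.sqrt (2 * π) * ∫ x in EF.II H m, gsn d (x - Real.log (n p)) with hφ
  have e1 : (m : ℝ) / Real.sqrt (2 * π) * (u p / n p * ∫ x in EF.II H m, gsn d (x - Real.log (n p))) =
      u p / n p * (m * φ) := by
    rw [hφ]; ring
  rw [e1]
  by_cases c : ((m : ℕ) : ℝ) - H ≤ n p ∧ n p < (m : ℕ)
  · rw [if_pos c, if_pos c]
    have h1 : u p - u p / n p * (m * φ) = u p / n p * ((n p - m) + m * (1 - φ)) := by
      field_simp
      ring
    rw [h1, abs_mul, abs_of_nonneg (by positivity)]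
    apply mul_le_mul_of_nonneg_left _ (by positivity)
    refine (abs_add_le _ _).trans ?_
    have h2 : |n p - m| ≤ H := by
      rw [abs_le]
      have h4 : (m : ℝ) ≤ n p + H := by linarith [c.1]
      have h5 : n p ≤ m := c.2.le
      have h6 : (0 : ℝ) ≤ H := Nat.cast_nonneg H
      constructor <;> linarith
    have h3 : |(m : ℝ) * (1 - φ)| ≤ 2 * X * |1 - φ| := by
      rw [abs_mul, abs_of_nonneg (Nat.cast_nonneg m)]
      exact mul_le_mul_of_nonneg_right hmX.2 (abs_nonneg _)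
    rw [mul_one]
    linarith
  · rw [if_neg c, if_neg c, zero_sub, abs_neg, abs_mul, abs_of_nonneg (by positivity : 0 ≤ u p / n p)]
    apply mul_le_mul_of_nonneg_left _ (by positivity)
    rw [mul_zero, zero_add, zero_sub, abs_neg, abs_mul, abs_of_nonneg (Nat.cast_nonneg m)]
    exact mul_le_mul_of_nonneg_right hmX.2 (abs_nonneg _)

/-- the function `B` near `log m` -/
private theorem T2_B (H X m : ℕ) (B₁ : ℝ) (B : ℝ → ℝ) (hH : 1 ≤ H) (hX : 100 * H ≤ X) (hm : m ∈ Icc X (2 * X))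
    (hB1 : 0 ≤ B₁) (hb : ∀ x, 0 ≤ B x ∧ B x ≤ B₁) (hl : ∀ x y, |B x - B y| ≤ B₁ * |x - y|) (hBi : IntegrableOn B (EF.II H m)) :
    |(m : ℝ) / Real.sqrt (2 * π) * (∫ x in EF.II H m, B x) - H / Real.sqrt (2 * π) * B (Real.log m)| ≤ 3 * B₁ * H ^ 2 / X := by
  have hmX : (X : ℝ) ≤ m ∧ (m : ℝ) ≤ 2 * X := by
    obtain ⟨h1, h2⟩ := Finset.mem_Icc.1 hm
    exact ⟨by exact_mod_cast h1, by exact_mod_cast h2⟩
  have hHr : (1 : ℝ) ≤ H := by exact_mod_cast hH
  have hX100 : 100 * (H : ℝ) ≤ X := by exact_mod_cast hX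
  have hX0 : (0 : ℝ) < X := by linarith
  have hm0 : (0 : ℝ) < m := by linarith
  obtain ⟨l1, l2⟩ := EF.II_len H X m hH hX hm
  set ℓ := Real.log m - Real.log ((m : ℝ) - H) with hℓ
  have hℓ0 : 0 ≤ ℓ := le_trans (by positivity) l1
  have hvol : volume.real (EF.II H m) = ℓ := by
    unfold EF.II
    rw [Real.volume_real_Icc_of_le (by linarith)]
  have hfin : volume (EF.II H m) ≠ ⊤ := by unfold EF.II; simp
  have hconst : ∫ _x in EF.II H m, B (Real.log m) = ℓ * B (Real.log m) := by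
    rw [setIntegral_const, smul_eq_mul, hvol]
  have hci : IntegrableOn (fun _ : ℝ => B (Real.log m)) (EF.II H m) := integrableOn_const hfin
  have h1 : |(∫ x in EF.II H m, B x) - ℓ * B (Real.log m)| ≤ B₁ * ℓ * ℓ := by
    rw [← hconst, ← integral_sub hBi hci]
    have h2 : ‖∫ x in EF.II H m, (B x - B (Real.log m))‖ ≤ (B₁ * ℓ) * volume.real (EF.II H m) := by
      apply norm_setIntegral_le_of_norm_le_const (lt_top_iff_ne_top.2 hfin)
      intro x hx
      rw [Real.norm_eq_abs]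
      refine (hl x _).trans ?_
      apply mul_le_mul_of_nonneg_left _ hB1
      unfold EF.II at hx
      rw [abs_le]
      constructor <;> linarith [hx.1, hx.2]
    rw [hvol, Real.norm_eq_abs] at h2
    exact h2
  set s := Real.sqrt (2 * π) with hs
  have hs2 : 2 ≤ s := by
    rw [hs]
    apply Real.le_sqrt_of_sq_le
    have := Real.pi_gt_three
    linarith
  have hs0 : 0 < s := by linarith
  have hHm : (H : ℝ) / m ≤ 1 / 100 := by
    rw [div_le_div_iff₀ hm0 (by norm_num)]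
    linarith
  have hl3 : ℓ ≤ 1.02 * (H / m) := by
    have h4 : (H : ℝ) ^ 2 / m ^ 2 = (H / m) * (H / m) := by rw [← div_pow, sq]
    have h5 : (0 : ℝ) ≤ H / m := by positivity
    have h6 : (H : ℝ) / m * (H / m) ≤ H / m * (1 / 100) := mul_le_mul_of_nonneg_left hHm h5
    have h7 : 2 * (H : ℝ) ^ 2 / m ^ 2 = 2 * ((H : ℝ) ^ 2 / m ^ 2) := by ring
    rw [h7, h4] at l2
    linarith
  have hb' := hb (Real.log m)
  have hsplit : (m : ℝ) / s * (∫ x in EF.II H m, B x) - H / s * B (Real.log m) =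
      m / s * ((∫ x in EF.II H m, B x) - ℓ * B (Real.log m)) + (m * ℓ - H) / s * B (Real.log m) := by
    field_simp
    ring
  rw [hsplit]
  refine (abs_add_le _ _).trans ?_
  have e1 : |(m : ℝ) / s * ((∫ x in EF.II H m, B x) - ℓ * B (Real.log m))| ≤ 0.5206 * (B₁ * (H ^ 2 / m)) := by
    rw [abs_mul, abs_of_nonneg (by positivity)]
    calc (m : ℝ) / s * |(∫ x in EF.II H m, B x) - ℓ * B (Real.log m)| ≤ m / 2 * (B₁ * ℓ * ℓ) := by
          apply mul_le_mul _ h1 (abs_nonneg _) (by positivity)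
          exact div_le_div_of_nonneg_left hm0.le (by norm_num) hs2
      _ ≤ m / 2 * (B₁ * (1.02 * (H / m)) * (1.02 * (H / m))) := by
          apply mul_le_mul_of_nonneg_left _ (by positivity)
          gcongr
      _ = 0.5202 * (B₁ * (H ^ 2 / m)) := by field_simp; ring
      _ ≤ _ := by
          have : 0 ≤ B₁ * ((H : ℝ) ^ 2 / m) := by positivity
          linarith
  have e2 : |((m : ℝ) * ℓ - H) / s * B (Real.log m)| ≤ B₁ * (H ^ 2 / m) := by
    have h4 : 0 ≤ (m : ℝ) * ℓ - H := by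
      have : (m : ℝ) * (H / m) ≤ m * ℓ := mul_le_mul_of_nonneg_left l1 hm0.le
      have h5 : (m : ℝ) * (H / m) = H := by field_simp
      linarith
    have h5 : (m : ℝ) * ℓ - H ≤ 2 * (H ^ 2 / m) := by
      have : (m : ℝ) * ℓ ≤ m * (H / m + 2 * (H : ℝ) ^ 2 / m ^ 2) := mul_le_mul_of_nonneg_left l2 hm0.le
      have h6 : (m : ℝ) * (H / m + 2 * (H : ℝ) ^ 2 / m ^ 2) = H + 2 * (H ^ 2 / m) := by
        field_simp
      linarith
    rw [abs_of_nonneg (mul_nonneg (div_nonneg h4 hs0.le) hb'.1)]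
    calc ((m : ℝ) * ℓ - H) / s * B (Real.log m) ≤ (2 * (H ^ 2 / m)) / 2 * B₁ := by
          apply mul_le_mul _ hb'.2 hb'.1 (by positivity)
          exact div_le_div₀ (by positivity) h5 (by norm_num) hs2
      _ = B₁ * (H ^ 2 / m) := by ring
  have e3 : (H : ℝ) ^ 2 / m ≤ H ^ 2 / X := div_le_div_of_nonneg_left (by positivity) hX0 hmX.1
  have e4 : B₁ * ((H : ℝ) ^ 2 / m) ≤ B₁ * (H ^ 2 / X) := mul_le_mul_of_nonneg_left e3 hB1
  have e5 : 3 * B₁ * (H : ℝ) ^ 2 / X = 3 * (B₁ * (H ^ 2 / X)) := by ring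
  rw [e5]
  have e6 : 0 ≤ B₁ * ((H : ℝ) ^ 2 / X) := by positivity
  linarith

open Classical in
/-- PROOF. As `win_two` (EF/S2; `sum_II` there is general), with `smooth_oneR`; exactly `H` integers `m` satisfy `m - H ≤ n < m`. -/
theorem win_twoR : ∃ C : ℝ, 1 ≤ C ∧ ∀ (ι : Type) (P : Finset ι) (n u : ι → ℝ) (H X : ℕ) (K B₁ η M M' θ : ℝ)
    (B E : ℝ → ℝ),
    (∀ p ∈ P, 0 < n p) → (∀ p ∈ P, 0 ≤ u p) → 1 ≤ H → 100 * H ≤ X → 1 ≤ K → 0 < θ → 0 ≤ B₁ →
    (∀ x, 0 ≤ E x) → IntegrableOn E (Set.Icc (Real.log X - 1) (Real.log X + 1)) →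
    ∫ x in Set.Icc (Real.log X - 1) (Real.log X + 1), E x ≤ η →
    ∑ p ∈ P, u p / n p ≤ M → ∑ p ∈ P, u p ≤ M' * X →
    (∀ x, 0 ≤ B x ∧ B x ≤ B₁) → (∀ x y, |B x - B y| ≤ B₁ * |x - y|) →
    6 * B₁ * H ≤ θ * X →
    (∀ x ∈ Set.Icc (Real.log X - 1) (Real.log X + 1),
      |∑ p ∈ P, u p / n p * gsn (H / (K * X)) (x - Real.log (n p)) - B x| ≤ E x) →
    (#{m ∈ Icc X (2 * X) | θ * H < |∑ p ∈ P with ((m : ℕ) : ℝ) - H ≤ n p ∧ n p < (m : ℕ), u p - H / Real.sqrt (2 * π) * B (Real.log m)|} : ℝ)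
      ≤ C * (X / θ) * (η + M * H / X + M' / K + M / H) := by
  obtain ⟨C, hC, hsm⟩ := smooth_oneR
  refine ⟨8 * C, by linarith, ?_⟩
  intro ι P n u H X K B₁ η M M' θ B E hn hu hH hX hK hθ hB1 hE hEi hEη hM hM' hb hl hBH hwin
  classical
  set I : Set ℝ := Set.Icc (Real.log X - 1) (Real.log X + 1) with hI
  have hHr : (1 : ℝ) ≤ H := by exact_mod_cast hH
  have hX100 : (100 : ℝ) * H ≤ X := by exact_mod_cast hX
  have hX0 : (0 : ℝ) < X := by linarith
  have hX1 : 1 ≤ X := by omega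
  have hK0 : 0 < K := by linarith
  have hH0 : (0 : ℝ) < H := by linarith
  set d : ℝ := (H : ℝ) / (K * X) with hd
  have hd0 : 0 < d := by positivity
  have hd1 : d ≤ 1 := by
    rw [hd, div_le_one (by positivity)]
    nlinarith
  set s := Real.sqrt (2 * π) with hs
  have hs2 : 2 ≤ s := by
    rw [hs]
    apply Real.le_sqrt_of_sq_le
    have := Real.pi_gt_three
    linarith
  have hs0 : 0 < s := by linarith
  have hun : ∀ p ∈ P, 0 ≤ u p / n p := fun p hp => div_nonneg (hu p hp) (hn p hp).le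
  have hM0 : 0 ≤ M := le_trans (Finset.sum_nonneg hun) hM
  have hBc : Continuous B := by
    rw [Metric.continuous_iff]
    intro b ε hε
    refine ⟨ε / (B₁ + 1), by positivity, fun a ha => ?_⟩
    rw [Real.dist_eq] at ha ⊢
    have h1 := hl a b
    have h2 : (B₁ + 1) * |a - b| < ε := by
      rw [lt_div_iff₀ (by positivity)] at ha
      linarith
    have h3 := abs_nonneg (a - b)
    nlinarith
  set S : ℝ → ℝ := fun x => ∑ p ∈ P, u p / n p * gsn d (x - Real.log (n p)) with hS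
  have hSi : Integrable S := integrable_finsetSum _ fun p _ => (gsn_integral d (Real.log (n p)) hd0).1.const_mul _
  have hBi : ∀ m, IntegrableOn B (EF.II H m) := by
    intro m
    unfold EF.II
    exact hBc.integrableOn_Icc
  -- sum of the first errors
  set A : ℕ → ℝ := fun m => ∑ p ∈ P with ((m : ℕ) : ℝ) - H ≤ n p ∧ n p < (m : ℕ), u p with hA
  set T : ℕ → ℝ := fun m => m / s * ∫ x in EF.II H m, S x with hT
  have hsum1 : ∑ m ∈ Icc X (2 * X), |A m - T m| ≤ M * H ^ 2 + 2 * X * (C * (d * (M' * X) + M)) := by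
    have h1 : ∀ m ∈ Icc X (2 * X), |A m - T m| ≤
        ∑ p ∈ P, u p / n p * (H * (if ((m : ℕ) : ℝ) - H ≤ n p ∧ n p < (m : ℕ) then (1 : ℝ) else 0) +
          2 * X * |(if ((m : ℕ) : ℝ) - H ≤ n p ∧ n p < (m : ℕ) then (1 : ℝ) else 0) -
            1 / s * ∫ x in EF.II H m, gsn d (x - Real.log (n p))|) := by
      intro m hm
      exact T2_point P n u H X m d hn hu hH hX hd0 hm
    refine (Finset.sum_le_sum h1).trans ?_
    rw [Finset.sum_comm]
    have h2 : ∀ p ∈ P, ∑ m ∈ Icc X (2 * X), u p / n p * (H * (if ((m : ℕ) : ℝ) - H ≤ n p ∧ n p < (m : ℕ) then (1 : ℝ) else 0) +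
          2 * X * |(if ((m : ℕ) : ℝ) - H ≤ n p ∧ n p < (m : ℕ) then (1 : ℝ) else 0) -
            1 / s * ∫ x in EF.II H m, gsn d (x - Real.log (n p))|) ≤
        u p / n p * (H * H + 2 * X * (C * (n p * d + 1))) := by
      intro p hp
      rw [← Finset.mul_sum, Finset.sum_add_distrib, ← Finset.mul_sum, ← Finset.mul_sum]
      apply mul_le_mul_of_nonneg_left _ (hun p hp)
      apply add_le_add
      · apply mul_le_mul_of_nonneg_left _ hH0.le
        rw [Finset.sum_boole]
        have h3 : (Icc X (2 * X)).filter (fun m => ((m : ℕ) : ℝ) - H ≤ n p ∧ n p < (m : ℕ)) ⊆ Finset.Ioc ⌊n p⌋₊ (⌊n p⌋₊ + H) := by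
          intro m hm
          rw [Finset.mem_filter] at hm
          obtain ⟨_, g1, g2⟩ := hm
          rw [Finset.mem_Ioc]
          refine ⟨(Nat.floor_lt (hn p hp).le).2 g2, ?_⟩
          rcases le_total m H with g3 | g3
          · omega
          · have g4 : ((m - H : ℕ) : ℝ) ≤ n p := by
              rw [Nat.cast_sub g3]
              exact g1
            have g5 := Nat.le_floor g4
            omega
        have h4 := Finset.card_le_card h3
        rw [Nat.card_Ioc] at h4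
        have h5 : #((Icc X (2 * X)).filter (fun m => ((m : ℕ) : ℝ) - H ≤ n p ∧ n p < (m : ℕ))) ≤ H := by omega
        exact_mod_cast h5
      · apply mul_le_mul_of_nonneg_left _ (by positivity)
        exact hsm H X (n p) d hH hX (hn p hp) hd0 hd1
    refine (Finset.sum_le_sum h2).trans ?_
    have h3 : ∑ p ∈ P, u p / n p * (H * H + 2 * X * (C * (n p * d + 1))) =
        (∑ p ∈ P, u p / n p) * (H * H + 2 * X * C) + 2 * X * C * d * ∑ p ∈ P, u p := by
      rw [Finset.sum_mul, Finset.mul_sum, ← Finset.sum_add_distrib]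
      refine Finset.sum_congr rfl fun p hp => ?_
      have hn0 : n p ≠ 0 := (hn p hp).ne'
      field_simp
      ring
    rw [h3]
    have h4 : (∑ p ∈ P, u p / n p) * (H * H + 2 * X * C) ≤ M * (H * H + 2 * X * C) :=
      mul_le_mul_of_nonneg_right hM (by positivity)
    have h5 : 2 * (X : ℝ) * C * d * ∑ p ∈ P, u p ≤ 2 * X * C * d * (M' * X) :=
      mul_le_mul_of_nonneg_left hM' (by positivity)
    calc _ ≤ M * (H * H + 2 * X * C) + 2 * X * C * d * (M' * X) := add_le_add h4 h5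
      _ = _ := by ring
  -- sum of the second errors
  have hη0 : 0 ≤ η := le_trans (integral_nonneg hE) hEη
  have hsum2 : ∑ m ∈ Icc X (2 * X), X * ∫ x in EF.II H m, E x ≤ 2 * X * H * η := by
    rw [← Finset.mul_sum]
    have h1 := EF.sum_II H X E hH hX hE hEi
    have h2 : ((H : ℝ) + 1) * ∫ x in I, E x ≤ 2 * H * η := by
      calc ((H : ℝ) + 1) * ∫ x in I, E x ≤ (2 * H) * ∫ x in I, E x := by
            apply mul_le_mul_of_nonneg_right (by linarith) (integral_nonneg hE)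
        _ ≤ 2 * H * η := mul_le_mul_of_nonneg_left hEη (by positivity)
    calc (X : ℝ) * ∑ m ∈ Icc X (2 * X), ∫ x in EF.II H m, E x ≤ X * (2 * H * η) :=
          mul_le_mul_of_nonneg_left (h1.trans h2) hX0.le
      _ = _ := by ring
  -- a bad m has a large error
  have hbad : ∀ m ∈ Icc X (2 * X), θ * H < |A m - H / s * B (Real.log m)| →
      θ * H / 2 ≤ |A m - T m| + X * ∫ x in EF.II H m, E x := by
    intro m hm hlt
    have hmX : (X : ℝ) ≤ m ∧ (m : ℝ) ≤ 2 * X := by
      obtain ⟨h1, h2⟩ := Finset.mem_Icc.1 hm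
      exact ⟨by exact_mod_cast h1, by exact_mod_cast h2⟩
    have hsub := EF.II_sub H X m hX hX1 hm
    have hEm : IntegrableOn E (EF.II H m) := hEi.mono_set hsub
    have h1 : |T m - m / s * (∫ x in EF.II H m, B x)| ≤ X * ∫ x in EF.II H m, E x := by
      have h2 : T m - m / s * (∫ x in EF.II H m, B x) = m / s * ∫ x in EF.II H m, (S x - B x) := by
        simp only [hT]
        rw [integral_sub hSi.integrableOn (hBi m)]
        ring
      rw [h2, abs_mul, abs_of_nonneg (by positivity)]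
      have h3 : |∫ x in EF.II H m, (S x - B x)| ≤ ∫ x in EF.II H m, E x := by
        refine abs_integral_le_integral_abs.trans ?_
        refine setIntegral_mono_on (hSi.integrableOn.sub (hBi m)).abs hEm measurableSet_Icc ?_
        intro x hx
        exact hwin x (hsub hx)
      have h4 : (m : ℝ) / s ≤ X := by
        rw [div_le_iff₀ hs0]
        nlinarith [hmX.2]
      exact mul_le_mul h4 h3 (abs_nonneg _) hX0.le
    have h2 := T2_B H X m B₁ B hH hX hm hB1 hb hl (hBi m)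
    have h3 : 3 * B₁ * (H : ℝ) ^ 2 / X ≤ θ * H / 2 := by
      rw [div_le_iff₀ hX0]
      nlinarith
    have h4 : |A m - H / s * B (Real.log m)| ≤ |A m - T m| + |T m - m / s * (∫ x in EF.II H m, B x)| +
        |m / s * (∫ x in EF.II H m, B x) - H / s * B (Real.log m)| := by
      have e1 : A m - H / s * B (Real.log m) = (A m - T m) + (T m - m / s * (∫ x in EF.II H m, B x)) +
        (m / s * (∫ x in EF.II H m, B x) - H / s * B (Real.log m)) := by ring
      rw [e1]
      exact (abs_add_le _ _).trans (add_le_add (abs_add_le _ _) le_rfl)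
    linarith
  -- Markov
  set bad := (Icc X (2 * X)).filter (fun m => θ * H < |A m - H / s * B (Real.log m)|) with hbadd
  have hmark : (bad.card : ℝ) * (θ * H / 2) ≤ (M * H ^ 2 + 2 * X * (C * (d * (M' * X) + M))) + 2 * X * H * η := by
    have h1 : (bad.card : ℝ) * (θ * H / 2) ≤ ∑ m ∈ bad, (|A m - T m| + X * ∫ x in EF.II H m, E x) := by
      rw [← nsmul_eq_mul]
      apply Finset.card_nsmul_le_sum
      intro m hm
      rw [hbadd, Finset.mem_filter] at hm
      exact hbad m hm.1 hm.2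
    have h2 : ∑ m ∈ bad, (|A m - T m| + X * ∫ x in EF.II H m, E x) ≤
        ∑ m ∈ Icc X (2 * X), (|A m - T m| + X * ∫ x in EF.II H m, E x) := by
      apply Finset.sum_le_sum_of_subset_of_nonneg (Finset.filter_subset _ _)
      intro m _ _
      have := integral_nonneg (μ := volume.restrict (EF.II H m)) (f := E) hE
      positivity
    rw [Finset.sum_add_distrib (s := Icc X (2 * X))] at h2
    linarith
  have hgoal : (bad.card : ℝ) ≤ 8 * C * (X / θ) * (η + M * H / X + M' / K + M / H) := by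
    have hθH : 0 < θ * H / 2 := by positivity
    rw [← div_le_div_iff_of_pos_right hθH, mul_div_assoc] at hmark
    have h1 : (bad.card : ℝ) ≤ ((M * H ^ 2 + 2 * X * (C * (d * (M' * X) + M))) + 2 * X * H * η) / (θ * H / 2) := by
      rw [le_div_iff₀ hθH]
      have h5 : (bad.card : ℝ) * (θ * H / 2 / (θ * H / 2)) = bad.card := by
        rw [div_self hθH.ne', mul_one]
      rw [h5, le_div_iff₀ hθH] at hmark
      exact hmark
    refine h1.trans ?_
    have hM'0 : 0 ≤ M' := by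
      have h2 : 0 ≤ M' * X := le_trans (Finset.sum_nonneg hu) hM'
      exact nonneg_of_mul_nonneg_left h2 hX0
    have h2 : ((M * H ^ 2 + 2 * X * (C * (d * (M' * X) + M))) + 2 * X * H * η) / (θ * H / 2)
        = X / θ * (2 * (M * H / X) + 4 * C * (M' / K) + 4 * C * (M / H) + 4 * η) := by
      rw [hd]
      field_simp
      ring
    rw [h2]
    have h3 : 0 ≤ M * H / X := by positivity
    have h4 : 0 ≤ M' / K := by positivity
    have h5 : 0 ≤ M / H := by positivity
    have h6 : 2 * (M * H / X) + 4 * C * (M' / K) + 4 * C * (M / H) + 4 * η ≤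
        8 * C * (η + M * H / X + M' / K + M / H) := by nlinarith
    calc X / θ * (2 * (M * H / X) + 4 * C * (M' / K) + 4 * C * (M / H) + 4 * η)
        ≤ X / θ * (8 * C * (η + M * H / X + M' / K + M / H)) := mul_le_mul_of_nonneg_left h6 (by positivity)
      _ = _ := by ring
  exact hgoal

end Pool.Agent.Lib.MP_bae66e_nt.MF
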